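import Mathlib

set_option autoImplicit false

namespace Pool.Agent.Results.MP_fca4fc_co.TreesAboveSixSevenths

/-! ## The game -/

/-- `v` is a legal choice in the L-domination game on `G` when the vertices in `S` have been
chosen so far: `v` is not in `S` and `N[v]` is not contained in the union of the open
neighbourhoods of the vertices of `S`. -/
def Legal {V : Type} (G : SimpleGraph V) (S : Finset V) (v : V) : Prop :=
  v ∉ S ∧ (insert v (G.neighborSet v) \ ⋃ w ∈ S, G.neighborSet w).Nonempty

/-- `EndsWithin G k t S`: from the position in which the vertices of `S` have been chosen and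
Dominator (if `t = true`) or Staller (if `t = false`) is to move, Dominator can force the game
to end after at most `k` further moves. -/
def EndsWithin {V : Type} [DecidableEq V] (G : SimpleGraph V) : ℕ → Bool → Finset V → Prop
  | 0, _, S => ∀ v, ¬ Legal G S v
  | k + 1, true, S =>
      (∀ v, ¬ Legal G S v) ∨ ∃ v, Legal G S v ∧ EndsWithin G k false (insert v S)
  | k + 1, false, S => ∀ v, Legal G S v → EndsWithin G k true (insert v S)

/-- The game L-domination number: the least `k` such that Dominator, moving first, can force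
the game to end after at most `k` moves. -/
noncomputable def gammaLg {V : Type} [DecidableEq V] (G : SimpleGraph V) : ℕ :=
  sInf {k | EndsWithin G k true ∅}

/-! ## Finite tables for the 11-vertex module -/

/-- neighbourhoods in the module, as bit masks; 0 is the centre, 1,2,3 its neighbours on the
three arms, 4,5,6 the leaves of the arms, 7-8-9-10 the path, 8 being adjacent to 0 -/
def nbm : ℕ → ℕ
  | 0 => 270 | 1 => 17 | 2 => 33 | 3 => 65 | 4 => 2 | 5 => 4 | 6 => 8
  | 7 => 256 | 8 => 641 | 9 => 1280 | 10 => 512 | _ => 0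

/-- closed neighbourhoods in the module, as lists -/
def cl : ℕ → List ℕ
  | 0 => [0, 1, 2, 3, 8] | 1 => [1, 0, 4] | 2 => [2, 0, 5] | 3 => [3, 0, 6]
  | 4 => [4, 1] | 5 => [5, 2] | 6 => [6, 3]
  | 7 => [7, 8] | 8 => [8, 0, 7, 9] | 9 => [9, 8, 10] | 10 => [10, 9] | _ => []

def und (P u : ℕ) : Bool := Nat.beq (Nat.land (nbm u) P) 0

def dleg (P x : ℕ) : Bool := !(Nat.testBit P x) && (Nat.beq x 0 || (cl x).any (fun u => und P u))

def sleg (P x : ℕ) : Bool :=
  !(Nat.testBit P x) && (cl x).any (fun u => !(Nat.beq u 0) && und P u)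

def tyTab : ℕ := 0x410410820410820820c30011020421430421430831870010421021430420831431870041031030c70451471471c80010420420831021431431870041030451471030c71471c80040451031471031470c71c800910a10a0cb10a0cb0cb2cc0000410410820410820820c30011020421430421430831870010421021430420831431870041031030c70451471471c80010420420831021431431870041030451471030c71471c80040451031471031470c71c800910a10a0cb10a0cb0cb2cc0410820820c30820c30c31c70421430831870831870c72c80420831431870830c71872c80451471471c808618818820c0420830830c71431871872c80451470861881471c818820c0450861471881471881c820c04d14e14e1cf14e1cf1cf3d01041451451861451861862cb1050c61461cb1461cb18b20f1051460c61cb14618b1cb20f1030cb0cb2cf1471cf1cf3d110514614618b0c61cb1cb20f1030cb1471cf0cb2cf1cf3d11031470cb1cf0cb1cf2cf3d110a0d20d22cc0d22cc2cc3130410820820c30820c30c31c70421430831870831870c72c80420831431870830c71872c80451471471c808618818820c0420830830c71431871872c80451470861881471c818820c0450861471881471881c820c04d14e14e1cf14e1cf1cf3d00440850850c60850c60c61cb04514608618b08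618b0cb2cf04508614618b0860cb18b2cf04d14e14e1cf0941951952110450860860cb14618b18b2cf04d14e09419514e1cf19521104d09414e19514e1951cf2110561571571d81571d81d83d90820c30c31c70c31c71c72080831870c72c80c72c81c83cc0830c71872c80c71c82c83cc08618818820c0cb2cc2cc3100830c70c71c81872c82c83cc0861880cb2cc18820c2cc3100860cb1882cc1882cc20c31009419519521119521121145a1431871872c81872c82c83cc1471c818820c18820c2cc3101471881c820c1882cc20c31014e1cf1cf3d019521121145a1471881882cc1c820c20c31014e1cf1952111cf3d021145a14e1951cf2111cf2113d045a1571d81d83d91d83d93d941b0000410410820410820820c30011020421430421430831870010421021430420831431870041031030c70451471471c80010420420831021431431870041030451471030c71471c80040451031471031470c71c800910a10a0cb10a0cb0cb2cc0000410410820410820820c30011020421430421430831870010421021430420831431870041031030c70451471471c80010420420831021431431870041030451471030c71471c80040451031471031470c71c800910a10a0cb10a0cb0cb2cc1041451451861451861862cb1050c61461cb1461cb18b20f1051460c61cb14618b1cb20f1030cb0cb2cf1471cf1cf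3d110514614618b0c61cb1cb20f1030cb1471cf0cb2cf1cf3d11031470cb1cf0cb1cf2cf3d110a0d20d22cc0d22cc2cc31324934d34d51434d51451449224d29435439235439251255824d35429439235451239255824a29229249834e39839861c24d35435451229439239255824a29234e39829249839861c24a34e29239829239849861c24628828849d28849d49d75e1041451451861451861862cb1050c61461cb1461cb18b20f1051460c61cb14618b1cb20f1030cb0cb2cf1471cf1cf3d110514614618b0c61cb1cb20f1030cb1471cf0cb2cf1cf3d11031470cb1cf0cb1cf2cf3d110a0d20d22cc0d22cc2cc31310914d14d19414d1941942d210d0d41541d21541d219221810d1540d41d21541921d221810a0d20d22d814e1d81d83dc10d1541541920d41d21d221810a0d214e1d80d22d81d83dc10a14e0d21d80d21d82d83dc11f0e00e02dd0e02dd2dd31e0c31c71c72081c720820830c0c72c81c83cc1c83cc20c4500c71c82c83cc1c820c3cc4500cb2cc2cc3101cf3d03d041a0c71c81c820c2c83cc3cc4500cb2cc1cf3d02cc3103d041a0cb1cf2cc3d02cc3d031041a0d22dd2dd3132dd3133134e128638b38b54f38b54f54f75128b48f38f61138f61155171328b38f48f61138f55161171328849149175338c61361365b28b38f38f55148f61161171328849138c61349175361365b28838c49161349161375365b2a24a34a375a4a375a75a7a4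

def vdTab : ℕ := 0x1383a4e645f09460f6b1cd8ba107b58f7316e6b58b62d498356f5a9cc6bdcd62d2b5396d6b14962d285a949425073396a7290c5adad62928521895b1493ad2832928399073164f749ac83df18c1cd5b9906be0e6aded629cd62d4c5a92e5a9a94316b6b18a49d486256b524ea4a0c9420e6398a46290c4196952d6a49cc83a909520e649cc541cc5218a41c5cc8316f73a0f7b58a6adec739ac5358b4b16b5254941dec5bd69731ae7358a4ad4d5b1ab5258a4a16a4a0e941cd06adeb539ad7b9cc5a58a72dad62d2c5a90b529284a0e693db16ae0e7c60f7316d641af7b98b7356a6b18b52d49445cd8b16f73a107b58a6adec73dac5398b4b58b5256a4a20d6418a7b5cf7b9ab5316e635cc5a9ab5258b5250a4a0ef629ca4b58c735ab521696a98c5a90b524ea4a50741cc56ad2d49d8a5b18b520e942d2a5a507520e64a0e629cc52312859cca4a56a520e5419474a5072a0e621cc6290a4189cb539486ad8d6b1694292c52d8a4a16941d4941cc8398ad521883ad4a62d69419275a14a4a0c941ca839cc5314838b990629ed741ee6ad4c5bd8e7356a6b14962d6a4a9283b9696a50c5adac62927521895ad493a92832508398e62920d5bd69731af7358a4ad4e5b5ac5258b4a16a5250941cd06b20b539ad7bdcc5a58a72dae62d2d5a90c5a928525077b14e521ab639ac5a50a4b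54c62d285a907525283a0e62b5496a4ec52d8c5a9074a16952d283a90732507314e6291893ace65252b529072a0ca3a52839507310e63148520c4f62dea4b58c739ab521696a98d5a90c524eb525074a0e672d2d49d8a5b58b520e94312b5a907524e64a10731cc523128620cb4a96b524e641d484a907324e62a0e6290c520d68328c54a10a4a4e621ca932107310e628cc5290641882e5a9c94316b6b58a49d486256c524eb4a0ca4a0e641cc56a92d41d6a5318b4a0c93ad0a5a506520e54a0e629cc523548620cb4a98b524e641d6852927325062a0e7314c520d893ace55212b5250629cca3a52831507290e63148520c4b41946224e852507290c54990839487310662948320c416250c399494ad6a41ca8328e9520e549cc441cc5218a41ad07598a94214a49cc439526424e6220c519cc520ca418947328a441ce94a0c51988829d0628ce5208c520c44188293152419cc6420e5208a3390c72904620c2520c4118820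

def vsTab : ℕ := 0x138be6f6ca1194a30735ee8be117b9b07358f7358b6b16a8b990629ed741ee6ad4c5bd8e7356a6b14962d6a4a9283bd8b7a92d631ce6ad485a5aa6356a431493ad4941d2839a707c9cd8c2128c5ee63db17420f731ee6adcd6b16c5a92f629ca4b58c735ab521696a98c5a90b524ea4a50741cc56a92d49d8a5b18b520e942d2a5a507520e64a0e629cc5249ed8b59073e307b9ab6b20d7bdcc5b9ab5358c5a96a4a20d6418a735af7b98b5314e5b5cc5a5ab5218b5250a4a0f17320c5bdae83dcd6298b7b1ce6ad4d6292c5ad4952507941d27322f846307b58e6c1cf839ac7b58b7358b5316a4c9ee8b5907be30839ab7320d7bdcd5b9ac5358c5a96a4a22e6c5ab7b9d083dac5b56f639ed629cc5a5ac5a92b525106adeb5398d7b9ac5a56a72dad6292c5a50b529284a0e672d4e521ab635ac5a50a4b14b629285a50752507320e62b548620eb5298b5a50649d6852928325072a0e7314c520dec5bd696b18e7356a4ad2d531ab5218a49d6a4a0e941cce5a5a94314b6b16a49d286256b520ea49cc9420e6398a48bdb16ae0e7c20f7316d63dae7b58b7316a6b16a4ad4943d8a7292d5b1cd62d48525aa6316942d483a92941d073160e6418a7b5cf7b9ab5316e635cc5a9ab5258b5250a4a0f17360c5bdce83ded629ab7b1ce6b14d62d2c5ad49525077b56f5a5cc6b9cd6292b53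56c6ad49629285a9283a5073396a7290c5adad62928521895b1493ad283292839907315aa431075a54c5a928320eb429493992831507398a6290706b1eb539ad7b9cc5a58a72dad62d2c5a90b529284a0e67314e521ab635ac5a50a4b14b629285a50752507320e62b5496a4eb5298c5a50749d6852d28329072a507314e6291893ace65212b5250729cca3a52831507290e63148520c4f62dca4b58c735ab521696a98c5a90b524ea4a50741cc572d4d4a18b5b58c524ea4312b5a927525064a10731cc5235696a4ec52d8c5a9074a16952d283a90732507314e62918a431065a54b5a927320ea425483992731507314862906b49d672a90952928314e649d09398a83148731483290626a92c41d6a5316b4a0c93ad0a525064a0e541ce6298a41b12859cca4a56a520e5419474a5072a0e621cc6290a4189683a8c54a10a4a4e621ca932107310e628cc5290641882a39925220e74a10628cc4414e731466290452106218820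

def doTab : ℕ := 0x124c000000fbf97c8807ffeff770249c100001fffbfddc8ffffffffe69f82c4003eff5f3201f7f2b9100d2f04800069f82c00034fe172001f7fafd980ffffffef47ffffffffbfff7fb381ffffffdecd3f8588007fffff7723efe5f2201e7f2b9000fbfdfecc07ffffff7a3ffffffffdf7fafd900ffffffee47ffffffff3ffffffffffffbfddc0ffffffef47fffffffb3ffffffffdfffffffffffffffffe7ffffffffbffffffffffffffffff

def geTab : ℕ := 0x1fffffffff6d0fb7fff960351bffdffffffffe180d46eff04020131fb7cffffffcb43e9fffedb1f6ffff6ffffffffb7dffffffdb67effffe581f4efff04068337f80010088dcb01e8dffe08050267f6d9ffffff820351bbfcb43edfffedb1f7ffff2c07a77ff8201419bfc00000446e581f4ffff04068377f80010098fc000000426180d46fff04028137f82010099fc00000046e00000001300020111f800000085c000000006000000001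

def rqTab : ℕ := 0x2144869229331169040f38d20640b30c2071481c31070c3081081000

def ty (P : ℕ) : ℕ := Nat.land (Nat.shiftRight tyTab (Nat.mul 6 P)) 63
def vd (t u : ℕ) : ℕ := Nat.land (Nat.shiftRight vdTab (Nat.mul 5 (Nat.add (Nat.mul 37 t) u))) 31
def vs (t u : ℕ) : ℕ := Nat.land (Nat.shiftRight vsTab (Nat.mul 5 (Nat.add (Nat.mul 37 t) u))) 31
def dor (t u : ℕ) : Bool := Nat.testBit doTab (Nat.add (Nat.mul 37 t) u)
def ger (t u : ℕ) : Bool := Nat.testBit geTab (Nat.add (Nat.mul 37 t) u)
def rq (t : ℕ) : ℕ := Nat.land (Nat.shiftRight rqTab (Nat.mul 6 t)) 63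

/-- `f` holds on `[lo, lo + 2^k)` -/
def allR : ℕ → ℕ → (ℕ → Bool) → Bool
  | 0, lo, f => f lo
  | k + 1, lo, f => allR k lo f && allR k (lo + 2 ^ k) f

theorem allR_spec (f : ℕ → Bool) (k : ℕ) : ∀ lo, allR k lo f = true →
    ∀ i, i < 2 ^ k → f (lo + i) = true := by
  induction k with
  | zero =>
    intro lo h i hi
    have : i = 0 := by simpa using hi
    subst this
    simpa [allR] using h
  | succ k ih =>
    intro lo h i hi
    simp only [allR, Bool.and_eq_true] at h
    by_cases hik : i < 2 ^ k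
    · exact ih lo h.1 i hik
    · have := ih _ h.2 (i - 2 ^ k) (by rw [pow_succ] at hi; omega)
      have e : lo + 2 ^ k + (i - 2 ^ k) = lo + i := by omega
      rwa [e] at this

def chk1 (P : ℕ) : Bool :=
  (List.range 11).all fun x => !(dleg P x) || dor (ty P) (ty (Nat.lor P (Nat.shiftLeft 1 x)))

def chk2 (P : ℕ) : Bool :=
  Nat.beq (ty P) 0 ||
    (List.range 11).any fun x => sleg P x && ger (ty (Nat.lor P (Nat.shiftLeft 1 x))) (rq (ty P))

def chkTy (P : ℕ) : Bool := Nat.ble (ty P) 36

theorem chk1_ok : allR 11 0 chk1 = true := by decide +kernel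
theorem chk2_ok : allR 11 0 chk2 = true := by decide +kernel
theorem chkTy_ok : allR 11 0 chkTy = true := by decide +kernel

def chk3 (t u : ℕ) : Bool := !(dor t u) ||
  (List.range 37).all fun w => Nat.ble (vd t w) (Nat.add 1 (vs u w))
def chk4 (t u : ℕ) : Bool := !(ger t u) ||
  (List.range 37).all fun w => Nat.ble (vd u w) (vd t w)
def chk5 (t u : ℕ) : Bool :=
  Nat.beq (vd t u) (vd u t) && Nat.beq (vs t u) (vs u t) && Nat.ble (vd t u) (vs t u)
def chk6 (t u : ℕ) : Bool :=
  (Nat.beq t 0 && Nat.beq u 0) ||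
  (!(Nat.beq t 0) && Nat.ble (vs t u) (Nat.add (vd (rq t) u) 1)) ||
  (!(Nat.beq u 0) && Nat.ble (vs t u) (Nat.add (vd t (rq u)) 1))

def chkP (t u : ℕ) : Bool := chk3 t u && chk4 t u && chk5 t u && chk6 t u

theorem chkP_ok : ((List.range 37).all fun t => (List.range 37).all fun u => chkP t u) = true := by
  decide +kernel


/-! ## Consequences of the tables -/

theorem ty_le {P : ℕ} (hP : P < 2048) : ty P ≤ 36 := by
  have h := allR_spec chkTy 11 0 chkTy_ok P (by simpa using hP)
  rw [Nat.zero_add] at h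
  exact Nat.le_of_ble_eq_true h

theorem chkP_spec {t u : ℕ} (ht : t ≤ 36) (hu : u ≤ 36) : chkP t u = true := by
  have h := chkP_ok
  rw [List.all_eq_true] at h
  have h1 := h t (List.mem_range.2 (by omega))
  rw [List.all_eq_true] at h1
  exact h1 u (List.mem_range.2 (by omega))

theorem vd_symm {t u : ℕ} (ht : t ≤ 36) (hu : u ≤ 36) : vd t u = vd u t := by
  have h := chkP_spec ht hu
  simp only [chkP, chk5, Bool.and_eq_true] at h
  exact Nat.eq_of_beq_eq_true h.1.2.1.1

theorem vs_symm {t u : ℕ} (ht : t ≤ 36) (hu : u ≤ 36) : vs t u = vs u t := by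
  have h := chkP_spec ht hu
  simp only [chkP, chk5, Bool.and_eq_true] at h
  exact Nat.eq_of_beq_eq_true h.1.2.1.2

theorem vd_le_vs {t u : ℕ} (ht : t ≤ 36) (hu : u ≤ 36) : vd t u ≤ vs t u := by
  have h := chkP_spec ht hu
  simp only [chkP, chk5, Bool.and_eq_true] at h
  exact Nat.le_of_ble_eq_true h.1.2.2

theorem dor_spec {t u w : ℕ} (ht : t ≤ 36) (hu : u ≤ 36) (hw : w ≤ 36) (h : dor t u = true) :
    vd t w ≤ 1 + vs u w := by
  have h' := chkP_spec ht hu
  simp only [chkP, chk3, Bool.and_eq_true, Bool.or_eq_true, h] at h'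
  rcases h'.1.1.1 with h1 | h1
  · simp at h1
  · rw [List.all_eq_true] at h1
    exact Nat.le_of_ble_eq_true (h1 w (List.mem_range.2 (by omega)))

theorem ger_spec {t u w : ℕ} (ht : t ≤ 36) (hu : u ≤ 36) (hw : w ≤ 36) (h : ger t u = true) :
    vd u w ≤ vd t w := by
  have h' := chkP_spec ht hu
  simp only [chkP, chk4, Bool.and_eq_true, Bool.or_eq_true, h] at h'
  rcases h'.1.1.2 with h1 | h1
  · simp at h1
  · rw [List.all_eq_true] at h1
    exact Nat.le_of_ble_eq_true (h1 w (List.mem_range.2 (by omega)))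

/-- Dominator's moves -/
theorem d_move {P x w : ℕ} (hP : P < 2048) (hx : x < 11) (hw : w ≤ 36) (hl : dleg P x = true)
    (hQ : Nat.lor P (Nat.shiftLeft 1 x) < 2048) :
    vd (ty P) w ≤ 1 + vs (ty (Nat.lor P (Nat.shiftLeft 1 x))) w := by
  have h := allR_spec chk1 11 0 chk1_ok P (by simpa using hP)
  rw [Nat.zero_add] at h
  unfold chk1 at h
  rw [List.all_eq_true] at h
  have h1 := h x (List.mem_range.2 hx)
  rw [hl] at h1
  exact dor_spec (ty_le hP) (ty_le hQ) hw (by simpa using h1)

theorem rq_le {P : ℕ} (hP : P < 2048) : rq (ty P) ≤ 36 := by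
  have : ∀ t : Fin 37, rq t.1 ≤ 36 := by decide +kernel
  exact this ⟨ty P, by have := ty_le hP; omega⟩

/-- Staller's moves -/
theorem s_move {P : ℕ} (hP : P < 2048) (h0 : ty P ≠ 0) :
    ∃ x, x < 11 ∧ sleg P x = true ∧
      (Nat.lor P (Nat.shiftLeft 1 x) < 2048 → ∀ w, w ≤ 36 →
        vd (rq (ty P)) w ≤ vd (ty (Nat.lor P (Nat.shiftLeft 1 x))) w) := by
  have h := allR_spec chk2 11 0 chk2_ok P (by simpa using hP)
  rw [Nat.zero_add] at h
  unfold chk2 at h
  rw [Bool.or_eq_true] at h
  rcases h with h | h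
  · exact absurd (Nat.eq_of_beq_eq_true h) h0
  · rw [List.any_eq_true] at h
    obtain ⟨x, hx, h1⟩ := h
    rw [Bool.and_eq_true] at h1
    exact ⟨x, List.mem_range.1 hx, h1.1, fun hQ w hw =>
      ger_spec (ty_le hQ) (rq_le hP) hw h1.2⟩

theorem vd_zero : vd 0 0 = 0 := by decide +kernel
theorem vs_zero : vs 0 0 = 0 := by decide +kernel
theorem vd_start : vd (ty 0) (ty 0) = 19 := by decide +kernel

/-- Staller's move in a pair of modules -/
theorem s_pair {P Q : ℕ} (hP : P < 2048) (hQ : Q < 2048) (h0 : ¬ (ty P = 0 ∧ ty Q = 0)) :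
    (∃ x, x < 11 ∧ sleg P x = true ∧ (Nat.lor P (Nat.shiftLeft 1 x) < 2048 →
        vs (ty P) (ty Q) ≤ vd (ty (Nat.lor P (Nat.shiftLeft 1 x))) (ty Q) + 1)) ∨
    (∃ x, x < 11 ∧ sleg Q x = true ∧ (Nat.lor Q (Nat.shiftLeft 1 x) < 2048 →
        vs (ty P) (ty Q) ≤ vd (ty P) (ty (Nat.lor Q (Nat.shiftLeft 1 x))) + 1)) := by
  have hp := ty_le hP
  have hq := ty_le hQ
  have h := chkP_spec hp hq
  simp only [chkP, Bool.and_eq_true] at h
  have h6 := h.2
  simp only [chk6, Bool.or_eq_true, Bool.and_eq_true, Bool.not_eq_true'] at h6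
  rcases h6 with (h6 | h6) | h6
  · exact absurd ⟨Nat.eq_of_beq_eq_true h6.1, Nat.eq_of_beq_eq_true h6.2⟩ h0
  · left
    have hne : ty P ≠ 0 := by
      intro e
      rw [e] at h6
      simp at h6
    obtain ⟨x, hx, hs, hv⟩ := s_move hP hne
    refine ⟨x, hx, hs, fun hlt => ?_⟩
    have h1 : vs (ty P) (ty Q) ≤ vd (rq (ty P)) (ty Q) + 1 := Nat.le_of_ble_eq_true h6.2
    have h2 := hv hlt (ty Q) hq
    omega
  · right
    have hne : ty Q ≠ 0 := by
      intro e
      rw [e] at h6
      simp at h6
    obtain ⟨x, hx, hs, hv⟩ := s_move hQ hne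
    refine ⟨x, hx, hs, fun hlt => ?_⟩
    have h1 : vs (ty P) (ty Q) ≤ vd (ty P) (rq (ty Q)) + 1 := Nat.le_of_ble_eq_true h6.2
    have h2 := hv hlt (ty P) hp
    rw [vd_symm hp (rq_le hQ)] at h1
    rw [vd_symm hp (ty_le hlt)]
    omega

/-! ## The trees -/

/-- vertices: `2 k` modules with 11 vertices each -/
abbrev Vx (k : ℕ) : Type := (Fin k × Bool) × Fin 11

/-- parents inside a module -/
def lp : Fin 11 → Fin 11 := ![0, 0, 0, 0, 1, 2, 3, 8, 0, 8, 9]

/-- depths inside a module -/
def dep : Fin 11 → ℕ := ![0, 1, 1, 1, 2, 2, 2, 2, 1, 2, 3]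

section tree

variable {V : Type} (r : V) (par : V → V) (rk : V → ℕ)

/-- the graph in which every vertex other than `r` is joined to its parent -/
def parGraph (h : ∀ v, v ≠ r → rk (par v) < rk v) : SimpleGraph V where
  Adj u v := (u ≠ r ∧ par u = v) ∨ (v ≠ r ∧ par v = u)
  symm := ⟨fun u v huv => by
    rcases huv with h1 | h1
    · exact Or.inr h1
    · exact Or.inl h1⟩
  loopless := ⟨fun u hu => by
    rcases hu with h1 | h1
    · have := h u h1.1
      rw [h1.2] at this
      exact lt_irrefl _ this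
    · have := h u h1.1
      rw [h1.2] at this
      exact lt_irrefl _ this⟩

theorem parGraph_isTree [Fintype V] (h : ∀ v, v ≠ r → rk (par v) < rk v) :
    (parGraph r par rk h).IsTree := by
  classical
  rw [SimpleGraph.isTree_iff_connected_and_card]
  have hreach : ∀ n, ∀ v, rk v ≤ n → (parGraph r par rk h).Reachable v r := by
    intro n
    induction n with
    | zero =>
      intro v hv
      by_cases hvr : v = r
      · rw [hvr]
      · have := h v hvr
        omega
    | succ n ih =>
      intro v hv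
      by_cases hvr : v = r
      · rw [hvr]
      · have h1 := h v hvr
        have h2 := ih (par v) (by omega)
        have h3 : (parGraph r par rk h).Adj v (par v) := Or.inl ⟨hvr, rfl⟩
        exact h3.reachable.trans h2
  constructor
  · have : Nonempty V := ⟨r⟩
    refine SimpleGraph.Connected.mk ?_
    intro u v
    exact (hreach _ u le_rfl).trans (hreach _ v le_rfl).symm
  · have hb : Function.Bijective (fun v : {v : V // v ≠ r} =>
        (⟨s(v.1, par v.1), by
          rw [SimpleGraph.mem_edgeSet]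
          exact Or.inl ⟨v.2, rfl⟩⟩ : (parGraph r par rk h).edgeSet)) := by
      constructor
      · intro u v huv
        have h1 : s(u.1, par u.1) = s(v.1, par v.1) := congrArg Subtype.val huv
        rw [Sym2.eq_iff] at h1
        rcases h1 with h1 | h1
        · exact Subtype.ext h1.1
        · have hu := h u.1 u.2
          have hv := h v.1 v.2
          rw [← h1.1] at hv
          rw [h1.2] at hu
          omega
      · rintro ⟨e, he⟩
        induction e using Sym2.ind with
        | _ u v =>
          rw [SimpleGraph.mem_edgeSet] at he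
          rcases he with he | he
          · refine ⟨⟨u, he.1⟩, ?_⟩
            apply Subtype.ext
            simp only
            rw [he.2]
          · refine ⟨⟨v, he.1⟩, ?_⟩
            apply Subtype.ext
            simp only
            rw [he.2, Sym2.eq_swap]
    have h1 := Nat.card_eq_of_bijective _ hb
    rw [← h1, Nat.card_eq_fintype_card, Nat.card_eq_fintype_card, Fintype.card_subtype_compl,
      Fintype.card_subtype_eq]
    have : 0 < Fintype.card V := Fintype.card_pos_iff.2 ⟨r⟩
    omega

end tree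

/-- the root -/
def root {k : ℕ} (hk : 1 ≤ k) : Vx k := ((⟨0, hk⟩, false), 0)

/-- the parent map -/
def par {k : ℕ} (hk : 1 ≤ k) (v : Vx k) : Vx k :=
  if v.2 = 0 then root hk else (v.1, lp v.2)

/-- the rank -/
def rk {k : ℕ} (hk : 1 ≤ k) (v : Vx k) : ℕ :=
  (if v.1 = (⟨0, hk⟩, false) then 0 else 1) + dep v.2

theorem rk_par {k : ℕ} (hk : 1 ≤ k) (v : Vx k) (hv : v ≠ root hk) : rk hk (par hk v) < rk hk v := by
  obtain ⟨w, x⟩ := v
  unfold par rk
  by_cases hx : x = 0
  · subst hx
    have hw : w ≠ (⟨0, hk⟩, false) := by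
      intro e
      apply hv
      rw [e]
      rfl
    simp only [if_true, root, if_neg hw]
    decide
  · simp only [if_neg hx]
    have : ∀ x : Fin 11, x ≠ 0 → dep (lp x) < dep x := by decide
    have := this x hx
    omega

/-- the tree: `2 k` modules, the centres joined to the centre of the first one -/
def tr {k : ℕ} (hk : 1 ≤ k) : SimpleGraph (Vx k) := parGraph (root hk) (par hk) (rk hk) (rk_par hk)

theorem tr_isTree {k : ℕ} (hk : 1 ≤ k) : (tr hk).IsTree := parGraph_isTree _ _ _ _

/-- adjacency inside a module -/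
def madj (x y : Fin 11) : Bool := Nat.testBit (nbm x.1) y.1

theorem madj_iff : ∀ x y : Fin 11, madj x y = true ↔
    ((x ≠ 0 ∧ lp x = y) ∨ (y ≠ 0 ∧ lp y = x)) := by decide +kernel

theorem madj_symm (x y : Fin 11) (h : madj x y = true) : madj y x = true := by
  rw [madj_iff] at h ⊢
  tauto

/-- local adjacency gives adjacency -/
theorem adj_of_madj {k : ℕ} (hk : 1 ≤ k) (w : Fin k × Bool) (x y : Fin 11)
    (h : madj x y = true) : (tr hk).Adj (w, x) (w, y) := by
  rw [madj_iff] at h
  rcases h with ⟨h1, h2⟩ | ⟨h1, h2⟩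
  · left
    refine ⟨?_, ?_⟩
    · intro e
      exact h1 (congrArg Prod.snd e)
    · unfold par
      simp only [if_neg h1, h2]
  · right
    refine ⟨?_, ?_⟩
    · intro e
      exact h1 (congrArg Prod.snd e)
    · unfold par
      simp only [if_neg h1, h2]

/-- neighbours of vertices other than the centres are local -/
theorem madj_of_adj {k : ℕ} (hk : 1 ≤ k) (w w' : Fin k × Bool) (x y : Fin 11) (hx : x ≠ 0)
    (h : (tr hk).Adj (w, x) (w', y)) : w' = w ∧ madj x y = true := by
  rcases h with ⟨h1, h2⟩ | ⟨h1, h2⟩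
  · unfold par at h2
    simp only [if_neg hx] at h2
    refine ⟨(congrArg Prod.fst h2).symm, ?_⟩
    rw [madj_iff]
    exact Or.inl ⟨hx, congrArg Prod.snd h2⟩
  · unfold par at h2
    by_cases hy : y = 0
    · simp only [if_pos hy] at h2
      exact absurd (congrArg Prod.snd h2).symm hx
    · simp only [if_neg hy] at h2
      refine ⟨congrArg Prod.fst h2, ?_⟩
      rw [madj_iff]
      exact Or.inr ⟨hy, congrArg Prod.snd h2⟩

theorem mem_cl : ∀ x u : Fin 11, (u = x ∨ madj x u = true) ↔ u.1 ∈ cl x.1 := by decide +kernel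

theorem cl_lt : ∀ x : Fin 11, ∀ u ∈ cl x.1, u < 11 := by decide +kernel

/-- legality, unfolded -/
theorem legal_iff {V : Type} (G : SimpleGraph V) (S : Finset V) (v : V) :
    Legal G S v ↔ v ∉ S ∧ ∃ u, (u = v ∨ G.Adj v u) ∧ ∀ w ∈ S, ¬ G.Adj w u := by
  unfold Legal Set.Nonempty
  simp only [Set.mem_sdiff, Set.mem_insert_iff, SimpleGraph.mem_neighborSet, Set.mem_iUnion,
    not_exists, exists_prop, not_and]

/-- the code of a module in a position -/
def code {k : ℕ} (S : Finset (Vx k)) (w : Fin k × Bool) : ℕ :=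
  Nat.ofBits (fun x : Fin 11 => decide ((w, x) ∈ S))

theorem code_lt {k : ℕ} (S : Finset (Vx k)) (w : Fin k × Bool) : code S w < 2048 :=
  Nat.ofBits_lt_two_pow _

theorem code_testBit {k : ℕ} (S : Finset (Vx k)) (w : Fin k × Bool) (x : Fin 11) :
    Nat.testBit (code S w) x.1 = decide ((w, x) ∈ S) := by
  unfold code
  rw [Nat.testBit_ofBits_lt _ _ x.2]

theorem code_testBit_ge {k : ℕ} (S : Finset (Vx k)) (w : Fin k × Bool) (x : ℕ) (hx : 11 ≤ x) :
    Nat.testBit (code S w) x = false := by
  unfold code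
  rw [Nat.testBit_ofBits_ge _ _ hx]

theorem code_insert_same {k : ℕ} (S : Finset (Vx k)) (w : Fin k × Bool) (x : Fin 11) :
    code (insert (w, x) S) w = Nat.lor (code S w) (Nat.shiftLeft 1 x.1) := by
  apply Nat.eq_of_testBit_eq
  intro i
  change _ = Nat.testBit (code S w ||| 1 <<< x.1) i
  rw [Nat.testBit_or, Nat.one_shiftLeft, Nat.testBit_two_pow]
  by_cases hi : i < 11
  · have h1 := code_testBit (insert (w, x) S) w ⟨i, hi⟩
    have h2 := code_testBit S w ⟨i, hi⟩
    simp only at h1 h2
    rw [h1, h2]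
    by_cases hxi : x = ⟨i, hi⟩
    · subst hxi
      simp
    · have hne : ¬ (x.1 = i) := fun e => hxi (Fin.ext e)
      have hne' : ((w, (⟨i, hi⟩ : Fin 11)) : Vx k) ≠ (w, x) := fun e =>
        hxi (congrArg Prod.snd e).symm
      simp only [Finset.mem_insert, hne', false_or, hne, decide_false, Bool.or_false]
  · have hi' : 11 ≤ i := by omega
    rw [code_testBit_ge _ _ _ hi', code_testBit_ge _ _ _ hi']
    have : ¬ (x.1 = i) := by have := x.2; omega
    simp [this]

theorem code_insert_ne {k : ℕ} (S : Finset (Vx k)) (w w' : Fin k × Bool) (x : Fin 11)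
    (h : w' ≠ w) : code (insert (w, x) S) w' = code S w' := by
  apply Nat.eq_of_testBit_eq
  intro i
  by_cases hi : i < 11
  · have h1 := code_testBit (insert (w, x) S) w' ⟨i, hi⟩
    have h2 := code_testBit S w' ⟨i, hi⟩
    simp only at h1 h2
    rw [h1, h2]
    have hne' : ((w', (⟨i, hi⟩ : Fin 11)) : Vx k) ≠ (w, x) := fun e => h (congrArg Prod.fst e)
    simp only [Finset.mem_insert, hne', false_or]
  · have hi' : 11 ≤ i := by omega
    rw [code_testBit_ge _ _ _ hi', code_testBit_ge _ _ _ hi']

theorem und_iff {k : ℕ} (S : Finset (Vx k)) (w : Fin k × Bool) (u : Fin 11) :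
    und (code S w) u.1 = true ↔ ∀ y : Fin 11, madj u y = true → (w, y) ∉ S := by
  unfold und
  constructor
  · intro h y hy hmem
    have h0 : nbm u.1 &&& code S w = 0 := Nat.eq_of_beq_eq_true h
    have h1 : Nat.testBit (nbm u.1 &&& code S w) y.1 = false := by rw [h0]; simp
    rw [Nat.testBit_and, code_testBit] at h1
    unfold madj at hy
    rw [hy] at h1
    simp [hmem] at h1
  · intro h
    have h0 : nbm u.1 &&& code S w = 0 := by
      apply Nat.eq_of_testBit_eq
      intro i
      rw [Nat.testBit_and, Nat.zero_testBit]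
      by_cases hi : i < 11
      · by_cases hm : madj u ⟨i, hi⟩ = true
        · have := h _ hm
          have h2 := code_testBit S w ⟨i, hi⟩
          simp only at h2
          rw [h2]
          simp [this]
        · unfold madj at hm
          simp only [Bool.not_eq_true] at hm
          rw [hm, Bool.false_and]
      · rw [code_testBit_ge _ _ _ (by omega), Bool.and_false]
    change Nat.beq (nbm u.1 &&& code S w) 0 = true
    rw [h0]
    rfl

/-- legal choices are legal for Dominator in the tables -/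
theorem dleg_of_legal {k : ℕ} (hk : 1 ≤ k) (S : Finset (Vx k)) (w : Fin k × Bool) (x : Fin 11)
    (h : Legal (tr hk) S (w, x)) : dleg (code S w) x.1 = true := by
  rw [legal_iff] at h
  obtain ⟨h1, ⟨w', u⟩, h2, h3⟩ := h
  unfold dleg
  rw [Bool.and_eq_true, Bool.or_eq_true]
  refine ⟨?_, ?_⟩
  · rw [code_testBit]
    simp [h1]
  · by_cases hx : x = 0
    · left
      subst hx
      rfl
    · right
      have hw : w' = w ∧ (u = x ∨ madj x u = true) := by
        rcases h2 with h2 | h2
        · exact ⟨congrArg Prod.fst h2, Or.inl (congrArg Prod.snd h2)⟩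
        · have := madj_of_adj hk w w' x u hx h2
          exact ⟨this.1, Or.inr this.2⟩
      obtain ⟨rfl, hu⟩ := hw
      rw [List.any_eq_true]
      refine ⟨u.1, (mem_cl x u).1 hu, ?_⟩
      rw [und_iff]
      intro y hy hmem
      exact h3 _ hmem (adj_of_madj hk w' y u (madj_symm u y hy))

/-- Staller's choices in the tables are legal -/
theorem legal_of_sleg {k : ℕ} (hk : 1 ≤ k) (S : Finset (Vx k)) (w : Fin k × Bool) (x : Fin 11)
    (h : sleg (code S w) x.1 = true) : Legal (tr hk) S (w, x) := by
  unfold sleg at h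
  rw [Bool.and_eq_true, List.any_eq_true] at h
  obtain ⟨h1, u0, hu0, h2⟩ := h
  have hult := cl_lt x u0 hu0
  obtain ⟨u, rfl⟩ : ∃ u : Fin 11, u.1 = u0 := ⟨⟨u0, hult⟩, rfl⟩
  rw [Bool.and_eq_true] at h2
  have hu : u ≠ 0 := by
    intro e
    rw [e] at h2
    simp at h2
  have h3 := (und_iff S w u).1 h2.2
  rw [legal_iff]
  refine ⟨?_, (w, u), ?_, ?_⟩
  · rw [code_testBit] at h1
    simpa using h1
  · rcases (mem_cl x u).2 hu0 with h4 | h4
    · left
      rw [h4]
    · right
      exact adj_of_madj hk w x u h4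
  · rintro ⟨w', y⟩ hmem hadj
    have := madj_of_adj hk w w' u y hu hadj.symm
    rw [this.1] at hmem
    exact h3 y this.2 hmem

/-! ## The potential -/

def fD {k : ℕ} (S : Finset (Vx k)) (i : Fin k) : ℕ :=
  vd (ty (code S (i, false))) (ty (code S (i, true)))

def fS {k : ℕ} (S : Finset (Vx k)) (i : Fin k) : ℕ :=
  vs (ty (code S (i, false))) (ty (code S (i, true)))

theorem fD_insert_ne {k : ℕ} (S : Finset (Vx k)) (i j : Fin k) (b : Bool) (x : Fin 11)
    (h : j ≠ i) : fD (insert ((i, b), x) S) j = fD S j := by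
  unfold fD
  rw [code_insert_ne, code_insert_ne]
  · intro e
    exact h (congrArg Prod.fst e)
  · intro e
    exact h (congrArg Prod.fst e)

theorem fD_dmove {k : ℕ} (hk : 1 ≤ k) (S : Finset (Vx k)) (i : Fin k) (b : Bool) (x : Fin 11)
    (h : Legal (tr hk) S ((i, b), x)) : fD S i ≤ 1 + fS (insert ((i, b), x) S) i := by
  have hd := dleg_of_legal hk S (i, b) x h
  unfold fD fS
  cases b with
  | false =>
    have hQ := code_lt (insert ((i, false), x) S) (i, false)
    rw [code_insert_same] at hQ
    rw [code_insert_same, code_insert_ne S (i, false) (i, true) x (by simp)]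
    exact d_move (code_lt _ _) x.2 (ty_le (code_lt _ _)) hd hQ
  | true =>
    have hQ := code_lt (insert ((i, true), x) S) (i, true)
    rw [code_insert_same] at hQ
    rw [code_insert_same, code_insert_ne S (i, true) (i, false) x (by simp)]
    have := d_move (w := ty (code S (i, false))) (code_lt S (i, true)) x.2
      (ty_le (code_lt _ _)) hd hQ
    rw [vd_symm (ty_le (code_lt _ _)) (ty_le (code_lt _ _)),
      vs_symm (ty_le (code_lt _ _)) (ty_le hQ)]
    exact this

theorem fD_smove {k : ℕ} (hk : 1 ≤ k) (S : Finset (Vx k)) (i : Fin k)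
    (h0 : ¬ (ty (code S (i, false)) = 0 ∧ ty (code S (i, true)) = 0)) :
    ∃ b x, Legal (tr hk) S ((i, b), x) ∧ fS S i ≤ fD (insert ((i, b), x) S) i + 1 := by
  rcases s_pair (code_lt S (i, false)) (code_lt S (i, true)) h0 with h | h
  · obtain ⟨x0, hx, hs, hv⟩ := h
    obtain ⟨x, rfl⟩ : ∃ x : Fin 11, x.1 = x0 := ⟨⟨x0, hx⟩, rfl⟩
    refine ⟨false, x, legal_of_sleg hk S _ x hs, ?_⟩
    have hQ := code_lt (insert ((i, false), x) S) (i, false)
    rw [code_insert_same] at hQ
    unfold fD fS
    rw [code_insert_same, code_insert_ne S (i, false) (i, true) x (by simp)]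
    exact hv hQ
  · obtain ⟨x0, hx, hs, hv⟩ := h
    obtain ⟨x, rfl⟩ : ∃ x : Fin 11, x.1 = x0 := ⟨⟨x0, hx⟩, rfl⟩
    refine ⟨true, x, legal_of_sleg hk S _ x hs, ?_⟩
    have hQ := code_lt (insert ((i, true), x) S) (i, true)
    rw [code_insert_same] at hQ
    unfold fD fS
    rw [code_insert_same, code_insert_ne S (i, true) (i, false) x (by simp)]
    exact hv hQ

theorem fD_le_fS {k : ℕ} (S : Finset (Vx k)) (i : Fin k) : fD S i ≤ fS S i :=
  vd_le_vs (ty_le (code_lt _ _)) (ty_le (code_lt _ _))

theorem f_zero {k : ℕ} (S : Finset (Vx k)) (i : Fin k)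
    (h0 : ty (code S (i, false)) = 0 ∧ ty (code S (i, true)) = 0) : fD S i = 0 ∧ fS S i = 0 := by
  unfold fD fS
  rw [h0.1, h0.2]
  exact ⟨vd_zero, vs_zero⟩

theorem sum_zero_of_no_legal {k : ℕ} (hk : 1 ≤ k) (S : Finset (Vx k))
    (h : ∀ v, ¬ Legal (tr hk) S v) (i : Fin k) : fD S i = 0 ∧ fS S i = 0 := by
  apply f_zero
  by_contra h0
  obtain ⟨b, x, hl, -⟩ := fD_smove hk S i h0
  exact h _ hl

theorem main {k : ℕ} (hk : 1 ≤ k) (n : ℕ) :
    (∀ S, EndsWithin (tr hk) n true S → ∑ i, fD S i ≤ n) ∧
    (∀ S, EndsWithin (tr hk) n false S →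
      ∀ i, fS S i + ∑ j ∈ Finset.univ.erase i, fD S j ≤ n) := by
  induction n with
  | zero =>
    constructor
    · intro S h
      have : ∑ i, fD S i = 0 :=
        Finset.sum_eq_zero fun i _ => (sum_zero_of_no_legal hk S h i).1
      omega
    · intro S h i
      have : ∑ j ∈ Finset.univ.erase i, fD S j = 0 :=
        Finset.sum_eq_zero fun i _ => (sum_zero_of_no_legal hk S h i).1
      rw [this, (sum_zero_of_no_legal hk S h i).2]
  | succ n ih =>
    constructor
    · intro S h
      rcases h with h | ⟨⟨⟨i, b⟩, x⟩, hl, he⟩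
      · have : ∑ i, fD S i = 0 :=
          Finset.sum_eq_zero fun i _ => (sum_zero_of_no_legal hk S h i).1
        omega
      · have h1 := ih.2 _ he i
        have h2 := fD_dmove hk S i b x hl
        have h3 : ∑ j ∈ Finset.univ.erase i, fD (insert ((i, b), x) S) j =
            ∑ j ∈ Finset.univ.erase i, fD S j :=
          Finset.sum_congr rfl fun j hj => fD_insert_ne S i j b x (Finset.ne_of_mem_erase hj)
        rw [h3] at h1
        rw [← Finset.add_sum_erase _ _ (Finset.mem_univ i)]
        omega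
    · intro S h i
      have key : ∀ j : Fin k, ¬ (ty (code S (j, false)) = 0 ∧ ty (code S (j, true)) = 0) →
          fS S j + ∑ l ∈ Finset.univ.erase j, fD S l ≤ n + 1 := by
        intro j hj
        obtain ⟨b, x, hl, hv⟩ := fD_smove hk S j hj
        have h1 := ih.1 _ (h _ hl)
        rw [← Finset.add_sum_erase _ _ (Finset.mem_univ j)] at h1
        have h3 : ∑ l ∈ Finset.univ.erase j, fD (insert ((j, b), x) S) l =
            ∑ l ∈ Finset.univ.erase j, fD S l :=
          Finset.sum_congr rfl fun l hl => fD_insert_ne S j l b x (Finset.ne_of_mem_erase hl)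
        rw [h3] at h1
        omega
      by_cases hi : ty (code S (i, false)) = 0 ∧ ty (code S (i, true)) = 0
      · have hz := f_zero S i hi
        have e1 : fS S i + ∑ j ∈ Finset.univ.erase i, fD S j = ∑ j, fD S j := by
          rw [← Finset.add_sum_erase _ _ (Finset.mem_univ i), hz.1, hz.2]
        rw [e1]
        by_cases hall : ∀ j : Fin k, ty (code S (j, false)) = 0 ∧ ty (code S (j, true)) = 0
        · have : ∑ j, fD S j = 0 := Finset.sum_eq_zero fun j _ => (f_zero S j (hall j)).1
          omega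
        · push Not at hall
          obtain ⟨j, hj⟩ := hall
          have h1 := key j (fun e => hj e.1 e.2)
          have h2 := fD_le_fS S j
          rw [← Finset.add_sum_erase _ _ (Finset.mem_univ j)]
          omega
      · exact key i hi

/-! ## Generalities on the game -/

theorem endsWithin_of_card {V : Type} [DecidableEq V] [Fintype V] (G : SimpleGraph V) (n : ℕ) :
    ∀ (t : Bool) (S : Finset V), Fintype.card V ≤ n + S.card → EndsWithin G n t S := by
  induction n with
  | zero =>
    intro t S h v hv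
    have : S = Finset.univ := Finset.eq_univ_of_card S (le_antisymm (Finset.card_le_univ S)
      (by omega))
    rw [this] at hv
    exact hv.1 (Finset.mem_univ v)
  | succ n ih =>
    intro t S h
    cases t with
    | true =>
      by_cases hl : ∀ v, ¬ Legal G S v
      · exact Or.inl hl
      · push Not at hl
        obtain ⟨v, hv⟩ := hl
        refine Or.inr ⟨v, hv, ih _ _ ?_⟩
        rw [Finset.card_insert_of_notMem hv.1]
        omega
    | false =>
      intro v hv
      apply ih
      rw [Finset.card_insert_of_notMem hv.1]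
      omega

theorem legal_iso {V W : Type} [DecidableEq V] [DecidableEq W] {G : SimpleGraph V}
    {G' : SimpleGraph W} (φ : G ≃g G') (S : Finset V) (v : V) :
    Legal G' (S.map φ.toEquiv.toEmbedding) (φ v) ↔ Legal G S v := by
  rw [legal_iff, legal_iff]
  constructor
  · rintro ⟨h1, u, h2, h3⟩
    refine ⟨fun h => h1 (Finset.mem_map_of_mem _ h), φ.symm u, ?_, ?_⟩
    · rcases h2 with h2 | h2
      · left
        rw [h2]
        simp
      · right
        rw [← φ.map_adj_iff]
        simpa using h2
    · intro w hw hadj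
      apply h3 (φ w) (Finset.mem_map_of_mem _ hw)
      rw [← φ.map_adj_iff] at hadj
      simpa using hadj
  · rintro ⟨h1, u, h2, h3⟩
    refine ⟨?_, φ u, ?_, ?_⟩
    · intro h
      rw [Finset.mem_map] at h
      obtain ⟨a, ha, hav⟩ := h
      exact h1 ((φ.toEquiv.injective hav) ▸ ha)
    · rcases h2 with h2 | h2
      · left
        rw [h2]
      · right
        exact φ.map_adj_iff.2 h2
    · intro w hw hadj
      rw [Finset.mem_map] at hw
      obtain ⟨a, ha, rfl⟩ := hw
      exact h3 a ha (φ.map_adj_iff.1 hadj)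

theorem endsWithin_iso {V W : Type} [DecidableEq V] [DecidableEq W] {G : SimpleGraph V}
    {G' : SimpleGraph W} (φ : G ≃g G') (n : ℕ) : ∀ (t : Bool) (S : Finset V),
    EndsWithin G' n t (S.map φ.toEquiv.toEmbedding) → EndsWithin G n t S := by
  induction n with
  | zero =>
    intro t S h v hv
    exact h (φ v) ((legal_iso φ S v).2 hv)
  | succ n ih =>
    intro t S h
    cases t with
    | true =>
      rcases h with h | ⟨w, hw, he⟩
      · left
        intro v hv
        exact h (φ v) ((legal_iso φ S v).2 hv)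
      · right
        obtain ⟨v, rfl⟩ := φ.surjective w
        refine ⟨v, (legal_iso φ S v).1 hw, ih _ _ ?_⟩
        rw [Finset.map_insert]
        exact he
    | false =>
      intro v hv
      apply ih
      rw [Finset.map_insert]
      exact h (φ v) ((legal_iso φ S v).2 hv)

theorem lower {k : ℕ} (hk : 1 ≤ k) (n : ℕ) (h : EndsWithin (tr hk) n true ∅) : 19 * k ≤ n := by
  have h1 := (main hk n).1 ∅ h
  have h2 : ∀ i : Fin k, fD (∅ : Finset (Vx k)) i = 19 := by
    intro i
    have hc : ∀ w : Fin k × Bool, code (∅ : Finset (Vx k)) w = 0 := by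
      intro w
      apply Nat.eq_of_testBit_eq
      intro j
      rw [Nat.zero_testBit]
      by_cases hj : j < 11
      · have := code_testBit (∅ : Finset (Vx k)) w ⟨j, hj⟩
        simpa using this
      · exact code_testBit_ge _ _ _ (by omega)
    unfold fD
    rw [hc, hc]
    exact vd_start
  rw [Finset.sum_congr rfl fun i _ => h2 i] at h1
  simp at h1
  omega

/-- For every `k ≥ 1` there is a tree with `22 k` vertices whose game L-domination number is at
least `19 k`, which exceeds `6/7` of the number of vertices. -/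
theorem result : ∀ k : ℕ, 1 ≤ k → ∃ G : SimpleGraph (Fin (22 * k)), G.IsTree ∧
    19 * k ≤ gammaLg G ∧ (6 / 7 : ℚ) * (22 * k : ℕ) < gammaLg G := by
  intro k hk
  have hcard : Fintype.card (Vx k) = 22 * k := by
    simp [Vx]
    ring
  let e : Vx k ≃ Fin (22 * k) := Fintype.equivFinOfCardEq hcard
  let G' : SimpleGraph (Fin (22 * k)) := (tr hk).map e.toEmbedding
  let φ : tr hk ≃g G' := SimpleGraph.Iso.map e (tr hk)
  have hT : G'.IsTree := (SimpleGraph.Iso.isTree_iff φ).1 (tr_isTree hk)
  have hne : {n | EndsWithin G' n true ∅}.Nonempty :=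
    ⟨22 * k, endsWithin_of_card G' _ _ _ (by simp)⟩
  have hmem : EndsWithin G' (gammaLg G') true ∅ := Nat.sInf_mem hne
  have hlow : 19 * k ≤ gammaLg G' := by
    apply lower hk
    apply endsWithin_iso φ
    simpa using hmem
  refine ⟨G', hT, hlow, ?_⟩
  have h1 : (19 * k : ℚ) ≤ gammaLg G' := by exact_mod_cast hlow
  have h2 : (1 : ℚ) ≤ k := by exact_mod_cast hk
  push_cast
  linarith

end Pool.Agent.Results.MP_fca4fc_co.TreesAboveSixSevenths
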